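import Pool.Agent.Y365.FS.Wt

/-!
# Orders which are multiplicative over the components (helper365)
-/

set_option autoImplicit false
set_option linter.unusedVariables false
set_option linter.unusedSectionVars false

namespace Y365.FS

variable {β : Type*} [DecidableEq β]

theorem sum_powerset_union {A B : Finset β} (hAB : Disjoint A B) (f : Finset β → ℚ) :
    ∑ U ∈ (A ∪ B).powerset, f U = ∑ U ∈ A.powerset, ∑ V ∈ B.powerset, f (U ∪ V) := by
  rw [← Finset.sum_product']
  refine Finset.sum_bij' (fun U _ => (U ∩ A, U ∩ B)) (fun p _ => p.1 ∪ p.2) ?_ ?_ ?_ ?_ ?_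
  · intro U _
    simp [Finset.inter_subset_right]
  · intro p hp
    rw [Finset.mem_product, Finset.mem_powerset, Finset.mem_powerset] at hp
    exact Finset.mem_powerset.2 (Finset.union_subset_union hp.1 hp.2)
  · intro U hU
    rw [Finset.mem_powerset] at hU
    dsimp only
    rw [← Finset.inter_union_distrib_left]
    exact Finset.inter_eq_left.2 hU
  · intro p hp
    rw [Finset.mem_product, Finset.mem_powerset, Finset.mem_powerset] at hp
    have h1 : Disjoint p.2 A := Finset.disjoint_of_subset_left hp.2 hAB.symm
    have h2 : Disjoint p.1 B := Finset.disjoint_of_subset_left hp.1 hAB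
    ext1
    · dsimp only
      rw [Finset.union_inter_distrib_right, Finset.disjoint_iff_inter_eq_empty.1 h1,
        Finset.union_empty]
      exact Finset.inter_eq_left.2 hp.1
    · dsimp only
      rw [Finset.union_inter_distrib_right, Finset.disjoint_iff_inter_eq_empty.1 h2,
        Finset.empty_union]
      exact Finset.inter_eq_left.2 hp.2
  · intro U hU
    rw [Finset.mem_powerset] at hU
    dsimp only
    rw [← Finset.inter_union_distrib_left, Finset.inter_eq_left.2 hU]

theorem bN_union {A B : Finset β} (hAB : Disjoint A B) (N : Finset β → ℚ)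
    (hN : ∀ U ⊆ A, ∀ V ⊆ B, N (U ∪ V) = N U * N V) : bN N (A ∪ B) = bN N A * bN N B := by
  rw [bN, sum_powerset_union hAB, bN, bN, Finset.sum_mul_sum]
  refine Finset.sum_congr rfl fun U hU => Finset.sum_congr rfl fun V hV => ?_
  rw [Finset.mem_powerset] at hU hV
  have h1 : Disjoint U V :=
    Finset.disjoint_of_subset_left hU (Finset.disjoint_of_subset_right hV hAB)
  rw [hN U hU V hV, Finset.card_union_of_disjoint hAB, Finset.card_union_of_disjoint h1]
  have c1 := Finset.card_le_card hU
  have c2 := Finset.card_le_card hV
  have e1 : A.card + B.card - (U.card + V.card) = (A.card - U.card) + (B.card - V.card) := by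
    omega
  rw [e1, pow_add, div_mul_div_comm]

/-- orders given by multiplicativity, and by a sign condition for the connected faces with at
least three vertices -/
theorem goodOrders_of {F : Finset (Finset β)} (hF : ∀ T ∈ F, ∀ U ⊆ T, U ∈ F)
    (w : Finset β → ℕ) (hw : ∀ e ∈ F, e.card = 2 → 2 ≤ w e) (N : Finset β → ℚ) (h0 : N ∅ = 1)
    (h1 : ∀ v, {v} ∈ F → N {v} = 2) (h2 : ∀ e ∈ F, e.card = 2 → N e = 2 * w e)
    (hmul : ∀ A B, Disjoint A B → A ∪ B ∈ F → (∀ a ∈ A, ∀ b ∈ B, w {a, b} = 2) →
      N (A ∪ B) = N A * N B)
    (hsign : ∀ T ∈ F, 3 ≤ T.card → (∀ A ⊆ T, A.Nonempty → A ≠ T → ∃ a ∈ A, ∃ b ∈ T, b ∉ A ∧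
        w {a, b} ≠ 2) → (Odd T.card → bN N T = 0) ∧ ∀ j, T.card = 2 * j → 0 ≤ (-1) ^ j * bN N T) :
    GoodOrders F N := by
  intro T hT
  induction hk : T.card using Nat.strong_induction_on generalizing T with
  | _ k ih =>
    subst hk
    by_cases hc : ∀ A ⊆ T, A.Nonempty → A ≠ T → ∃ a ∈ A, ∃ b ∈ T, b ∉ A ∧ w {a, b} ≠ 2
    · rcases Nat.lt_or_ge T.card 3 with h3 | h3
      · have hcases : T.card = 0 ∨ T.card = 1 ∨ T.card = 2 := by omega
        rcases hcases with hc0 | hc1 | hc2
        · rw [Finset.card_eq_zero] at hc0
          subst hc0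
          refine ⟨fun h => by simp at h, fun j hj => ?_⟩
          obtain rfl : j = 0 := by simpa using hj.symm
          simp [bN, h0]
        · obtain ⟨v, rfl⟩ := Finset.card_eq_one.1 hc1
          refine ⟨fun _ => ?_, fun j hj => by rw [hc1] at hj; omega⟩
          have e1 : ({v} : Finset β) = insert v ∅ := rfl
          rw [bN, e1, Finset.sum_powerset_insert (Finset.notMem_empty v)]
          have e2 : insert v (∅ : Finset β) = {v} := rfl
          simp only [Finset.powerset_empty, Finset.sum_singleton, e2, Finset.card_singleton,
            Finset.card_empty, h0, h1 v hT]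
          norm_num
        · obtain ⟨u, v, huv, rfl⟩ := Finset.card_eq_two.1 hc2
          refine ⟨fun h => by rw [hc2] at h; exact absurd h (by decide), fun j hj => ?_⟩
          obtain rfl : j = 1 := by rw [hc2] at hj; omega
          have hu : ({u} : Finset β) ∈ F := hF _ hT _ (by simp)
          have hv : ({v} : Finset β) ∈ F := hF _ hT _ (by simp)
          have hw2 : (2 : ℚ) ≤ w {u, v} := by exact_mod_cast hw _ hT hc2
          have hu' : u ∉ ({v} : Finset β) := by simpa using huv
          have e1 : ({v} : Finset β) = insert v ∅ := rfl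
          have hb : bN N {u, v} = 1 / (2 * (w {u, v} : ℚ)) - 1 / 4 := by
            rw [bN, Finset.sum_powerset_insert hu', e1,
              Finset.sum_powerset_insert (Finset.notMem_empty v),
              Finset.sum_powerset_insert (Finset.notMem_empty v)]
            have e2 : insert v (∅ : Finset β) = {v} := rfl
            have e3 : insert u (∅ : Finset β) = {u} := rfl
            simp only [Finset.powerset_empty, Finset.sum_singleton, e2, e3,
              Finset.card_singleton, Finset.card_empty, h0, h1 v hv, h1 u hu, hc2,
              h2 _ hT hc2]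
            norm_num
            ring
          rw [hb]
          have h5 : 1 / (2 * (w {u, v} : ℚ)) ≤ 1 / 4 := by
            apply one_div_le_one_div_of_le (by norm_num)
            linarith
          rw [pow_one]
          linarith
      · exact hsign T hT h3 hc
    · push Not at hc
      obtain ⟨A, hA, hAne, hAT, hlight⟩ := hc
      have hun : A ∪ (T \ A) = T := Finset.union_sdiff_of_subset hA
      have hd : Disjoint A (T \ A) := Finset.disjoint_sdiff
      have hBne : (T \ A).Nonempty := by
        rw [Finset.sdiff_nonempty]
        exact fun h => hAT (Finset.Subset.antisymm hA h)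
      have hcard := Finset.card_union_of_disjoint hd
      rw [hun] at hcard
      have a1 := Finset.card_pos.2 hAne
      have a2 := Finset.card_pos.2 hBne
      obtain ⟨i1, i2⟩ := ih A.card (by omega) A (hF T hT A hA) rfl
      obtain ⟨j1, j2⟩ := ih (T \ A).card (by omega) (T \ A) (hF T hT _ Finset.sdiff_subset) rfl
      have hb : bN N T = bN N A * bN N (T \ A) := by
        have := bN_union hd N (fun U hU V hV => hmul U V
          (Finset.disjoint_of_subset_left hU (Finset.disjoint_of_subset_right hV hd))
          (hF T hT _ (by rw [← hun]; exact Finset.union_subset_union hU hV))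
          (fun a ha b hb => by
            have hb' := Finset.mem_sdiff.1 (hV hb)
            exact hlight a (hU ha) b hb'.1 hb'.2))
        rwa [hun] at this
      rw [hb]
      refine ⟨fun ho => ?_, fun j hj => ?_⟩
      · rcases Nat.even_or_odd A.card with he | he
        · have : Odd (T \ A).card := by
            rw [Nat.odd_iff] at ho ⊢
            rw [Nat.even_iff] at he
            omega
          rw [j1 this, mul_zero]
        · rw [i1 he, zero_mul]
      · rcases Nat.even_or_odd A.card with ⟨a, ha⟩ | he
        · have k1 := i2 a (by omega)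
          have k2 := j2 (j - a) (by omega)
          have e1 : j = a + (j - a) := by omega
          have e2 : (-1 : ℚ) ^ j * (bN N A * bN N (T \ A)) =
              ((-1) ^ a * bN N A) * ((-1) ^ (j - a) * bN N (T \ A)) := by
            rw [e1, pow_add, Nat.add_sub_cancel_left]; ring
          rw [e2]
          exact mul_nonneg k1 k2
        · rw [i1 he]; simp

end Y365.FS
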