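import Pool.Agent.Y365.FS.Sph

/-!
# Flag spheres with a join factor of odd rank (helper365)
-/

set_option autoImplicit false

namespace Y365.FS

open Pool.Agent.W497.FS

variable {k : Type} [Field k] {n : ℕ} {S : Finset (Finset (Fin n))}

/-- a join factor of odd rank makes the Charney-Davis quantity vanish -/
theorem cd_odd {m : ℕ} (h : IsFlagSphere k (2 * m) S)
    (hC : ∃ C, IsFactor S C ∧ ∃ G ∈ S, G.card = 2 * m ∧ Odd (G ∩ C).card) : omega S = 0 := by
  rw [h.omega_eq]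
  obtain ⟨C, hCf, G, hG, hGc, hodd⟩ := hC
  have hCc : C ∈ comps (skel S) (vert S) := mem_comps_iff.2 hCf
  obtain ⟨e', f, hef, hC1, hC2, hfull, hun⟩ := split_comp h.np hCc
  have hG' : G ∈ cl (skel S) (vert S) := by rw [h.cl_eq]; exact hG
  have hGv := (mem_cl.1 hG').1
  have g1 : G ∩ C ∈ cl (skel S) C := mem_cl.2 ⟨Finset.inter_subset_right, fun x hx y hy hxy =>
    (mem_cl.1 hG').2 x (Finset.mem_inter.1 hx).1 y (Finset.mem_inter.1 hy).1 hxy⟩
  have g2 : G \ C ∈ cl (skel S) (vert S \ C) := mem_cl.2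
    ⟨Finset.sdiff_subset_sdiff hGv (Finset.Subset.refl C), fun x hx y hy hxy =>
    (mem_cl.1 hG').2 x (Finset.mem_sdiff.1 hx).1 y (Finset.mem_sdiff.1 hy).1 hxy⟩
  have c1 := hC1.card_le g1
  have c2 := hC2.card_le g2
  have c3 := Finset.card_inter_add_card_sdiff G C
  have c4 : (G ∩ C).card = e' := by omega
  have hE : Eul (skel S) (e' + f) (C ∪ (vert S \ C)) := by
    rw [hun, hef]; exact h.eul
  have hEC : Eul (skel S) e' C := Eul.left hfull hC2 hE
  rw [← hun, lam_join hfull, lam_odd hEC (c4 ▸ hodd), zero_mul]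

end Y365.FS
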