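import Pool.Agent.Y365.FS.Wt2

/-!
# The theorems for flag homology spheres (helper365)
-/

set_option autoImplicit false
set_option linter.unusedVariables false
set_option linter.unusedSectionVars false

namespace Y365.FS

open Pool.Agent.W497.FS

variable {k : Type} [Field k] {n d : ℕ} {S : Finset (Finset (Fin n))}

theorem face_of_cl (h : IsFlagSphere k d S) {C F : Finset (Fin n)}
    (hC : C ∈ comps (skel S) (vert S)) (hF : F ∈ cl (skel S) C) : F ∈ S ∧ F ⊆ C := by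
  have h1 := cl_mono (mem_comps.1 hC).1 hF
  rw [h.cl_eq] at h1
  exact ⟨h1, (mem_cl.1 hF).1⟩

theorem cl_of_face (h : IsFlagSphere k d S) {C F : Finset (Fin n)} (hF : F ∈ S) (hFC : F ⊆ C) :
    F ∈ cl (skel S) C := by
  rw [← h.cl_eq] at hF
  exact mem_cl.2 ⟨hFC, (mem_cl.1 hF).2⟩

/-- from the condition on the faces inside the join factors to the class -/
theorem kc_of (h : IsFlagSphere k d S)
    (hC : ∀ C, IsFactor S C → (∀ F ∈ S, F ⊆ C → F.card ≤ 3) ∨
      ∃ F ∈ S, F ⊆ C ∧ C.card ≤ max (2 * F.card + 6) (3 * F.card)) :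
    Kc (skel S) (vert S) := by
  intro C hCc e he
  rcases hC C (mem_comps_iff.1 hCc) with h1 | ⟨F, hF, hFC, h2⟩
  · obtain ⟨β, hβ, hβc, -⟩ := he.exists_facet
    obtain ⟨hβS, hβC⟩ := face_of_cl h hCc hβ
    left
    rw [← hβc]
    exact h1 β hβS hβC
  · have h3 := he.card_le (cl_of_face h hF hFC)
    right
    rcases le_max_iff.1 h2 with h4 | h4
    · left; omega
    · right; omega

theorem kev_of {m : ℕ} (h : IsFlagSphere k (2 * m) S)
    (hC : ∀ C, IsFactor S C → (∃ G ∈ S, G.card = 2 * m ∧ Odd (G ∩ C).card) ∨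
      (∀ F ∈ S, F ⊆ C → F.card ≤ 2) ∨
      ∃ F ∈ S, F ⊆ C ∧ C.card ≤ max (2 * F.card + 6) (3 * F.card)) :
    Kev (skel S) (vert S) := by
  intro C hCc e he
  rcases hC C (mem_comps_iff.1 hCc) with ⟨G, hG, hGc, hodd⟩ | h1 | ⟨F, hF, hFC, h2⟩
  · left
    obtain ⟨e', f, hef, hC1, hC2, hfull, hun⟩ := split_comp h.np hCc
    obtain rfl := hC1.rank_unique he
    have hG' : G ∈ cl (skel S) (vert S) := by rw [h.cl_eq]; exact hG
    have hGv := (mem_cl.1 hG').1
    have g1 : G ∩ C ∈ cl (skel S) C := mem_cl.2 ⟨Finset.inter_subset_right, fun x hx y hy hxy =>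
      (mem_cl.1 hG').2 x (Finset.mem_inter.1 hx).1 y (Finset.mem_inter.1 hy).1 hxy⟩
    have g2 : G \ C ∈ cl (skel S) (vert S \ C) := mem_cl.2
      ⟨Finset.sdiff_subset_sdiff hGv (Finset.Subset.refl C), fun x hx y hy hxy =>
      (mem_cl.1 hG').2 x (Finset.mem_sdiff.1 hx).1 y (Finset.mem_sdiff.1 hy).1 hxy⟩
    have c1 := hC1.card_le g1
    have c2 := hC2.card_le g2
    have c3 := Finset.card_inter_add_card_sdiff G C
    have c4 : (G ∩ C).card = e' := by omega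
    rw [← c4]
    exact hodd
  · obtain ⟨β, hβ, hβc, -⟩ := he.exists_facet
    obtain ⟨hβS, hβC⟩ := face_of_cl h hCc hβ
    right; left
    rw [← hβc]
    exact h1 β hβS hβC
  · have h3 := he.card_le (cl_of_face h hF hFC)
    right; right
    rcases le_max_iff.1 h2 with h4 | h4
    · left; omega
    · right; omega

/-- Gal's conjecture: join factors of small rank or with few vertices -/
theorem gal_factors (h : IsFlagSphere k d S)
    (hC : ∀ C, IsFactor S C → (∀ F ∈ S, F ⊆ C → F.card ≤ 3) ∨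
      ∃ F ∈ S, F ⊆ C ∧ C.card ≤ max (2 * F.card + 6) (3 * F.card))
    {γ : ℕ → ℤ} (hγ : IsGamma d S γ) : ∀ i ≤ d / 2, 0 ≤ γ i :=
  h.gamma_nonneg ((kc_of h hC).gal h.np h.eul) hγ

/-- the top part of the gamma-vector -/
theorem gal_top (h : IsFlagSphere k d S) {γ : ℕ → ℤ} (hγ : IsGamma d S γ) :
    ∀ i ≤ d / 2, numVert S ≤ 2 * d + i + 3 → 0 ≤ γ i := by
  obtain ⟨a, ha, h1, -⟩ := Mt_coeffs (mem_Mt h.np h.eul)
  have h3 := h.np.two_mul_le
  intro i hi hN
  rw [numVert_eq] at hN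
  rw [h.gamma_eq hγ ha i hi]
  exact h1 i (by omega)

/-- Charney-Davis: conditions on the join factors of even rank -/
theorem cd_factors {m : ℕ} (h : IsFlagSphere k (2 * m) S)
    (hC : ∀ C, IsFactor S C → (∃ G ∈ S, G.card = 2 * m ∧ Odd (G ∩ C).card) ∨
      (∀ F ∈ S, F ⊆ C → F.card ≤ 2) ∨
      ∃ F ∈ S, F ⊆ C ∧ C.card ≤ max (2 * F.card + 6) (3 * F.card)) :
    0 ≤ (-1) ^ m * omega S := by
  rw [h.omega_eq]
  exact (kev_of h hC).cd h.np h.eul m rfl

/-- the weighted inequality -/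
theorem weighted {m : ℕ} (h : IsFlagSphere k (2 * m) S)
    (hC : ∀ C, IsFactor S C → (∀ F ∈ S, F ⊆ C → F.card ≤ 3) ∨
      ∃ F ∈ S, F ⊆ C ∧ C.card ≤ max (2 * F.card + 6) (3 * F.card))
    {N : Finset (Fin n) → ℚ} (hN : GoodOrders S N) :
    0 ≤ (-1) ^ m * ∑ σ ∈ S, (-1) ^ σ.card / N σ := by
  have h1 := weighted_nonneg h.np h.eul (kc_of h hC) (N := N) (by rw [h.cl_eq]; exact hN)
  rwa [h.cl_eq] at h1

end Y365.FS
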